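import Pool.Agent.Helper12_UNF.Stmts2

set_option autoImplicit false

/-!
# Squad UNF, module OAC: the Artin action on the free product of groups of order two
-/

namespace Unf

namespace H6

open Art

theorem ox_mul_self {k : ℕ} (i : Fin k) : ox i * ox i = 1 :=
  (Om k).toCoxeterSystem.simple_mul_simple_self i

theorem Om_M {k : ℕ} (i j : Fin k) : (Om k).M i j = if i = j then 1 else 0 := rfl

/-- The universal property of `O k`. -/
theorem olift {k : ℕ} {G : Type} [Monoid G] (f : Fin k → G) (hf : ∀ i, f i * f i = 1) :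
    ∃ φ : O k →* G, ∀ i, φ (ox i) = f i := by
  have hl : (Om k).IsLiftable f := by
    intro i i'
    rw [show (Om k) i i' = (Om k).M i i' from rfl, Om_M]
    by_cases h : i = i'
    · subst h
      rw [if_pos rfl, pow_one, hf]
    · rw [if_neg h, pow_zero]
  exact ⟨(Om k).toCoxeterSystem.lift ⟨f, hl⟩,
    fun i => (Om k).toCoxeterSystem.lift_apply_simple hl i⟩

theorem oext {k : ℕ} {G : Type} [Monoid G] {φ ψ : O k →* G} (h : ∀ i, φ (ox i) = ψ (ox i)) :
    φ = ψ := (Om k).toCoxeterSystem.ext_simple h

theorem autext {k : ℕ} {a b : MulAut (O k)} (h : ∀ i, a (ox i) = b (ox i)) : a = b := by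
  have h1 : (MulEquiv.toMonoidHom a) = MulEquiv.toMonoidHom b := oext h
  ext x
  exact DFunLike.congr_fun h1 x

/-- The automorphism `σ_i`. -/
theorem sig_exists {n : ℕ} (i : Fin n) : ∃ a : MulAut (O (n + 1)),
    a (ox i.castSucc) = ox i.castSucc * ox i.succ * ox i.castSucc ∧
    a (ox i.succ) = ox i.castSucc ∧
    ∀ j : Fin (n + 1), j ≠ i.castSucc → j ≠ i.succ → a (ox j) = ox j := by
  have hne : i.succ ≠ i.castSucc := by
    intro h
    have := congrArg Fin.val h
    simp at this
  obtain ⟨φ, hφ⟩ := olift (fun j : Fin (n + 1) => if j = i.castSucc then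
      (ox i.castSucc * ox i.succ * ox i.castSucc : O (n + 1)) else if j = i.succ then
        ox i.castSucc else ox j) (by
    intro j
    split_ifs
    · calc ox i.castSucc * ox i.succ * ox i.castSucc * (ox i.castSucc * ox i.succ * ox i.castSucc)
          = ox i.castSucc * ox i.succ * (ox i.castSucc * ox i.castSucc) * ox i.succ *
            ox i.castSucc := by simp only [mul_assoc]
        _ = 1 := by
          rw [ox_mul_self, mul_one, mul_assoc (ox i.castSucc), ox_mul_self, mul_one, ox_mul_self]
    · exact ox_mul_self _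
    · exact ox_mul_self _)
  obtain ⟨ψ, hψ⟩ := olift (fun j : Fin (n + 1) => if j = i.castSucc then
      (ox i.succ : O (n + 1)) else if j = i.succ then
        ox i.succ * ox i.castSucc * ox i.succ else ox j) (by
    intro j
    split_ifs
    · exact ox_mul_self _
    · calc ox i.succ * ox i.castSucc * ox i.succ * (ox i.succ * ox i.castSucc * ox i.succ)
          = ox i.succ * ox i.castSucc * (ox i.succ * ox i.succ) * ox i.castSucc *
            ox i.succ := by simp only [mul_assoc]
        _ = 1 := by
          rw [ox_mul_self, mul_one, mul_assoc (ox i.succ), ox_mul_self, mul_one, ox_mul_self]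
    · exact ox_mul_self _)
  have p1 : φ (ox i.castSucc) = ox i.castSucc * ox i.succ * ox i.castSucc := by
    rw [hφ, if_pos rfl]
  have p2 : φ (ox i.succ) = ox i.castSucc := by
    rw [hφ, if_neg hne, if_pos rfl]
  have p3 : ∀ j : Fin (n + 1), j ≠ i.castSucc → j ≠ i.succ → φ (ox j) = ox j := by
    intro j h1 h2
    rw [hφ, if_neg h1, if_neg h2]
  have q1 : ψ (ox i.castSucc) = ox i.succ := by
    rw [hψ, if_pos rfl]
  have q2 : ψ (ox i.succ) = ox i.succ * ox i.castSucc * ox i.succ := by
    rw [hψ, if_neg hne, if_pos rfl]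
  have q3 : ∀ j : Fin (n + 1), j ≠ i.castSucc → j ≠ i.succ → ψ (ox j) = ox j := by
    intro j h1 h2
    rw [hψ, if_neg h1, if_neg h2]
  have e1 : φ.comp ψ = MonoidHom.id _ := by
    apply oext
    intro j
    rw [MonoidHom.comp_apply, MonoidHom.id_apply]
    by_cases h1 : j = i.castSucc
    · rw [h1, q1, p2]
    · by_cases h2 : j = i.succ
      · rw [h2, q2, map_mul, map_mul, p2, p1]
        calc ox i.castSucc * (ox i.castSucc * ox i.succ * ox i.castSucc) * ox i.castSucc
            = (ox i.castSucc * ox i.castSucc) * ox i.succ * (ox i.castSucc * ox i.castSucc) := by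
              simp only [mul_assoc]
          _ = ox i.succ := by rw [ox_mul_self, one_mul, mul_one]
      · rw [q3 j h1 h2, p3 j h1 h2]
  have e2 : ψ.comp φ = MonoidHom.id _ := by
    apply oext
    intro j
    rw [MonoidHom.comp_apply, MonoidHom.id_apply]
    by_cases h1 : j = i.castSucc
    · rw [h1, p1, map_mul, map_mul, q1, q2]
      calc ox i.succ * (ox i.succ * ox i.castSucc * ox i.succ) * ox i.succ
          = (ox i.succ * ox i.succ) * ox i.castSucc * (ox i.succ * ox i.succ) := by
            simp only [mul_assoc]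
        _ = ox i.castSucc := by rw [ox_mul_self, one_mul, mul_one]
    · by_cases h2 : j = i.succ
      · rw [h2, p2, q1]
      · rw [p3 j h1 h2, q3 j h1 h2]
  exact ⟨MonoidHom.toMulEquiv φ ψ e2 e1, p1, p2, p3⟩

/-- The braid relation. -/
theorem braid {n : ℕ} (sg : Fin n → MulAut (O (n + 1)))
    (h : ∀ i : Fin n, sg i (ox i.castSucc) = ox i.castSucc * ox i.succ * ox i.castSucc ∧
      sg i (ox i.succ) = ox i.castSucc ∧
      ∀ j : Fin (n + 1), j ≠ i.castSucc → j ≠ i.succ → sg i (ox j) = ox j)
    (i j : Fin n) (hij : i.1 + 1 = j.1) : sg i * (sg j * sg i) = sg j * (sg i * sg j) := by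
  have hb : j.castSucc = i.succ := by
    apply Fin.ext
    simp [← hij]
  have hi := h i
  have hj := h j
  rw [hb] at hj
  obtain ⟨i1, i2, i3⟩ := hi
  obtain ⟨j1, j2, j3⟩ := hj
  have nca : j.succ ≠ i.castSucc := by
    intro hh
    have := congrArg Fin.val hh
    simp at this
    omega
  have ncb : j.succ ≠ i.succ := by
    intro hh
    have := congrArg Fin.val hh
    simp at this
    omega
  have nab : i.castSucc ≠ i.succ := by
    intro hh
    have := congrArg Fin.val hh
    simp at this
  have ic : sg i (ox j.succ) = ox j.succ := i3 _ nca ncb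
  have ja : sg j (ox i.castSucc) = ox i.castSucc := j3 _ nab nca.symm
  apply autext
  intro l
  simp only [MulAut.mul_apply]
  by_cases h1 : l = i.castSucc
  · rw [h1, i1]
    simp only [map_mul, ja, j1, i1, i2, ic]
    calc ox i.castSucc * ox i.succ * ox i.castSucc * (ox i.castSucc * ox j.succ * ox i.castSucc) *
          (ox i.castSucc * ox i.succ * ox i.castSucc)
        = ox i.castSucc * ox i.succ * (ox i.castSucc * ox i.castSucc) * ox j.succ *
          (ox i.castSucc * ox i.castSucc) * ox i.succ * ox i.castSucc := by simp only [mul_assoc]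
      _ = ox i.castSucc * (ox i.succ * ox j.succ * ox i.succ) * ox i.castSucc := by
        rw [ox_mul_self, mul_one, mul_one]
        simp only [mul_assoc]
  · by_cases h2 : l = i.succ
    · rw [h2]
      simp only [map_mul, ja, j1, i1, i2, ic, j2]
    · by_cases h3 : l = j.succ
      · rw [h3]
        simp only [ic, j2, i2, ja]
      · rw [i3 l h1 h2, j3 l h2 h3, i3 l h1 h2, j3 l h2 h3]

/-- Distant generators commute. -/
theorem commu {n : ℕ} (sg : Fin n → MulAut (O (n + 1)))
    (h : ∀ i : Fin n, sg i (ox i.castSucc) = ox i.castSucc * ox i.succ * ox i.castSucc ∧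
      sg i (ox i.succ) = ox i.castSucc ∧
      ∀ j : Fin (n + 1), j ≠ i.castSucc → j ≠ i.succ → sg i (ox j) = ox j)
    (i j : Fin n) (hij : i.1 + 1 < j.1) : sg i * sg j = sg j * sg i := by
  obtain ⟨i1, i2, i3⟩ := h i
  obtain ⟨j1, j2, j3⟩ := h j
  have n1 : j.castSucc ≠ i.castSucc := by
    intro hh
    have := congrArg Fin.val hh
    simp at this
    omega
  have n2 : j.castSucc ≠ i.succ := by
    intro hh
    have := congrArg Fin.val hh
    simp at this
    omega
  have n3 : j.succ ≠ i.castSucc := by
    intro hh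
    have := congrArg Fin.val hh
    simp at this
    omega
  have n4 : j.succ ≠ i.succ := by
    intro hh
    have := congrArg Fin.val hh
    simp at this
    omega
  have a1 : sg i (ox j.castSucc) = ox j.castSucc := i3 _ n1 n2
  have a2 : sg i (ox j.succ) = ox j.succ := i3 _ n3 n4
  have b1 : sg j (ox i.castSucc) = ox i.castSucc := j3 _ n1.symm n3.symm
  have b2 : sg j (ox i.succ) = ox i.succ := j3 _ n2.symm n4.symm
  apply autext
  intro l
  simp only [MulAut.mul_apply]
  by_cases h1 : l = i.castSucc
  · rw [h1, b1, i1]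
    simp only [map_mul, b1, b2]
  · by_cases h2 : l = i.succ
    · rw [h2, b2, i2, b1]
    · by_cases h3 : l = j.castSucc
      · rw [h3, a1, j1]
        simp only [map_mul, a1, a2]
      · by_cases h4 : l = j.succ
        · rw [h4, a2, j2, a1]
        · rw [i3 l h1 h2, j3 l h3 h4, i3 l h1 h2]

theorem oac : OacStmt := by
  intro n
  choose sg h using fun i : Fin n => sig_exists i
  obtain ⟨Ψ, hΨ⟩ := Art.lift (CoxeterMatrix.A n) (G := MulAut (O (n + 1))) sg (by
    intro i j _
    have hM : (CoxeterMatrix.A n).M i j =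
        if i = j then 1 else (if (j : ℕ) + 1 = i ∨ (i : ℕ) + 1 = j then 3 else 2) := rfl
    rw [hM]
    by_cases hij : i = j
    · rw [hij]
    · rw [if_neg hij]
      by_cases h3 : (j : ℕ) + 1 = i ∨ (i : ℕ) + 1 = j
      · rw [if_pos h3]
        rw [alt_succ, alt_two, alt_succ, alt_two]
        rcases h3 with h3 | h3
        · exact (braid sg h j i h3).symm
        · exact braid sg h i j h3
      · rw [if_neg h3, alt_two, alt_two]
        have hne : (i : ℕ) ≠ j := fun hh => hij (Fin.ext hh)
        rcases Nat.lt_or_ge i.1 j.1 with hl | hl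
        · exact commu sg h i j (by omega)
        · exact (commu sg h j i (by omega)).symm)
  refine ⟨Ψ, fun i => ?_⟩
  rw [hΨ]
  exact h i

end H6

end Unf
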