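import Pool.Agent.Helper6_UNF.Oac

set_option autoImplicit false

/-!
# Squad UNF, module RDC: reduction of a segment by the braid generators of the segment
-/

namespace Unf

namespace H6

open Art

/-- The generators are distinct. -/
theorem ox_injective {k : ℕ} : Function.Injective (ox : Fin k → O k) := by
  intro i j hij
  by_contra hne
  obtain ⟨φ, hφ⟩ := olift (fun l : Fin k => if l = i then (-1 : ℤˣ) else 1) (by
    intro l
    split_ifs <;> simp)
  have h1 : φ (ox i) = φ (ox j) := by rw [hij]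
  rw [hφ, hφ, if_pos rfl, if_neg (fun h => hne h.symm)] at h1
  exact absurd h1 (by decide)

/-- Every element is given by a word. -/
theorem exists_word {k : ℕ} (g : O k) : ∃ w : List (Fin k), wp w = g := by
  obtain ⟨w, hw⟩ := (Om k).toCoxeterSystem.wordProd_surjective g
  exact ⟨w, hw⟩

/-- Consecutive elements of a filtered interval. -/
theorem chain_seg (m lo hi : ℕ) :
    ((List.finRange m).filter (fun j => lo ≤ j.1 ∧ j.1 ≤ hi)).IsChain
      (fun a b => a.1 + 1 = b.1 ∧ lo ≤ a.1 ∧ b.1 ≤ hi) := by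
  rw [List.isChain_iff_forall_rel_of_append_cons_cons]
  intro a b l1 l2 hl
  have hp : ((List.finRange m).filter (fun j => lo ≤ j.1 ∧ j.1 ≤ hi)).Pairwise (· < ·) :=
    (List.pairwise_lt_finRange m).filter _
  have hmem : ∀ c : Fin m, c ∈ (List.finRange m).filter (fun j => lo ≤ j.1 ∧ j.1 ≤ hi) ↔
      lo ≤ c.1 ∧ c.1 ≤ hi := by
    intro c
    rw [List.mem_filter]
    simp
  rw [hl] at hp hmem
  have ha := (hmem a).1 (by simp)
  have hb := (hmem b).1 (by simp)
  rw [List.pairwise_append] at hp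
  obtain ⟨_, hp2, hp3⟩ := hp
  rw [List.pairwise_cons] at hp2
  obtain ⟨hab, hp2⟩ := hp2
  rw [List.pairwise_cons] at hp2
  obtain ⟨hbl, _⟩ := hp2
  have hablt : a.1 < b.1 := hab b (by simp)
  refine ⟨?_, ha.1, hb.2⟩
  by_contra hne
  have hlt : a.1 + 1 < b.1 := by omega
  have hc := (hmem ⟨a.1 + 1, by omega⟩).2 ⟨by show lo ≤ a.1 + 1; omega, by show a.1 + 1 ≤ hi; omega⟩
  rw [List.mem_append, List.mem_cons, List.mem_cons] at hc
  rcases hc with hc | hc | hc | hc
  · have := hp3 _ hc a (by simp)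
    have h2 : a.1 + 1 < a.1 := this
    omega
  · have := congrArg Fin.val hc
    simp at this
  · have := congrArg Fin.val hc
    simp at this
    omega
  · have h2 : b.1 < a.1 + 1 := hbl _ hc
    omega

/-- The images of the generators are conjugates of the generators. -/
theorem conj_img {n : ℕ} {Ψ : Gp (CoxeterMatrix.A n) →* MulAut (O (n + 1))} (hΨ : IsArt n Ψ)
    (a : Gp (CoxeterMatrix.A n)) (j : Fin (n + 1)) :
    ∃ (w : List (Fin (n + 1))) (i : Fin (n + 1)), Ψ a (ox j) = wp w * ox i * (wp w)⁻¹ := by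
  have key : ∀ b : Gp (CoxeterMatrix.A n), b ∈ Subgroup.closure (Set.range (gen (CoxeterMatrix.A n))) →
      (∀ j : Fin (n + 1), ∃ (g : O (n + 1)) (i : Fin (n + 1)), Ψ b (ox j) = g * ox i * g⁻¹) ∧
      (∀ j : Fin (n + 1), ∃ (g : O (n + 1)) (i : Fin (n + 1)), Ψ b⁻¹ (ox j) = g * ox i * g⁻¹) := by
    intro b hb
    refine Subgroup.closure_induction (p := fun b _ =>
      (∀ j : Fin (n + 1), ∃ (g : O (n + 1)) (i : Fin (n + 1)), Ψ b (ox j) = g * ox i * g⁻¹) ∧
      (∀ j : Fin (n + 1), ∃ (g : O (n + 1)) (i : Fin (n + 1)), Ψ b⁻¹ (ox j) = g * ox i * g⁻¹))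
      ?_ ?_ ?_ ?_ hb
    · rintro _ ⟨i, rfl⟩
      obtain ⟨h1, h2, h3⟩ := hΨ i
      constructor
      · intro j
        by_cases hj1 : j = i.castSucc
        · refine ⟨ox i.castSucc, i.succ, ?_⟩
          rw [hj1, h1, inv_eq_of_mul_eq_one_right (ox_mul_self i.castSucc)]
        · by_cases hj2 : j = i.succ
          · exact ⟨1, i.castSucc, by rw [hj2, h2]; simp⟩
          · exact ⟨1, j, by rw [h3 j hj1 hj2]; simp⟩
      · intro j
        by_cases hj1 : j = i.castSucc
        · refine ⟨1, i.succ, ?_⟩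
          rw [hj1, map_inv, MulAut.inv_apply, MulEquiv.symm_apply_eq]
          simp [h2]
        · by_cases hj2 : j = i.succ
          · refine ⟨ox i.succ, i.castSucc, ?_⟩
            rw [hj2, map_inv, MulAut.inv_apply, MulEquiv.symm_apply_eq,
              inv_eq_of_mul_eq_one_right (ox_mul_self i.succ), map_mul, map_mul, h1, h2]
            calc ox i.succ = (ox i.castSucc * ox i.castSucc) * ox i.succ *
                (ox i.castSucc * ox i.castSucc) := by rw [ox_mul_self, one_mul, mul_one]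
              _ = _ := by simp only [mul_assoc]
          · refine ⟨1, j, ?_⟩
            rw [map_inv, MulAut.inv_apply, MulEquiv.symm_apply_eq]
            simp [h3 j hj1 hj2]
    · constructor
      · intro j
        exact ⟨1, j, by simp⟩
      · intro j
        exact ⟨1, j, by simp⟩
    · intro x y _ _ hx hy
      constructor
      · intro j
        obtain ⟨g, i, hg⟩ := hy.1 j
        obtain ⟨g', i', hg'⟩ := hx.1 i
        refine ⟨Ψ x g * g', i', ?_⟩
        rw [map_mul, MulAut.mul_apply, hg, map_mul, map_mul, hg', map_inv]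
        group
      · intro j
        obtain ⟨g, i, hg⟩ := hx.2 j
        obtain ⟨g', i', hg'⟩ := hy.2 i
        refine ⟨Ψ y⁻¹ g * g', i', ?_⟩
        rw [mul_inv_rev, map_mul, MulAut.mul_apply, hg, map_mul, map_mul, hg', map_inv (Ψ y⁻¹) g,
          mul_inv_rev]
        simp only [mul_assoc]
    · intro x _ hx
      exact ⟨hx.2, by rw [inv_inv]; exact hx.1⟩
  obtain ⟨g, i, hg⟩ := (key a (by rw [closure_gen]; trivial)).1 j
  obtain ⟨w, rfl⟩ := exists_word g
  exact ⟨w, i, hg⟩

/-- If two sums over `Fin m` agree up to a transposition, with one smaller term. -/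
theorem sum_swap_lt {m : ℕ} (f g : Fin m → ℕ) (x y : Fin m) (hxy : x ≠ y)
    (h : (f x + f y) < g x + g y) (ho : ∀ j, j ≠ x → j ≠ y → f j = g j) :
    ∑ j, f j < ∑ j, g j := by
  classical
  have key : ∀ u : Fin m → ℕ, ∑ j, u j = (u x + u y) + ∑ j ∈ (Finset.univ.erase x).erase y, u j := by
    intro u
    rw [← Finset.add_sum_erase Finset.univ u (Finset.mem_univ x),
      ← Finset.add_sum_erase (Finset.univ.erase x) u
        (Finset.mem_erase.2 ⟨hxy.symm, Finset.mem_univ y⟩)]
    ring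
  rw [key f, key g]
  have : ∑ j ∈ (Finset.univ.erase x).erase y, f j = ∑ j ∈ (Finset.univ.erase x).erase y, g j := by
    apply Finset.sum_congr rfl
    intro j hj
    rw [Finset.mem_erase, Finset.mem_erase] at hj
    exact ho j hj.2.1 hj.1
  omega

theorem rdc (hln : HlnStmt) : RdcStmt := by
  intro n Ψ hΨ a lo hi hlo hhi
  obtain ⟨_, _, h3, h4, _, _, _⟩ := hln (n + 1)
  set Q : Set (Gp (CoxeterMatrix.A n)) :=
    (P (CoxeterMatrix.A n) {k | lo ≤ k.1 ∧ k.1 < hi} : Set (Gp (CoxeterMatrix.A n))) with hQ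
  let N : Gp (CoxeterMatrix.A n) → ℕ := fun b => ∑ j : Fin (n + 1), hl (Ψ (a * b) (ox j))
  have hne : (N '' Q).Nonempty := ⟨N 1, 1, one_mem _, rfl⟩
  obtain ⟨b, hb, hbN⟩ := Nat.sInf_mem hne
  have hmin : ∀ c ∈ P (CoxeterMatrix.A n) {k | lo ≤ k.1 ∧ k.1 < hi}, ¬ N c < N b := by
    intro c hc hlt
    have : sInf (N '' Q) ≤ N c := Nat.sInf_le ⟨c, hc, rfl⟩
    omega
  refine ⟨b, hb, ?_, ?_⟩
  · intro A hA
    rw [List.mem_map] at hA
    obtain ⟨j, _, rfl⟩ := hA
    obtain ⟨w, i, hw⟩ := conj_img hΨ (a * b) j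
    rw [hw]
    exact (h3 w i).1
  · rw [List.isChain_map]
    refine List.IsChain.imp ?_ (chain_seg (n + 1) lo hi)
    intro x y hxy
    obtain ⟨hxy1, hx, hy⟩ := hxy
    have hk : x.1 < n := by have := y.2; omega
    set k : Fin n := ⟨x.1, hk⟩ with hkdef
    have hxk : k.castSucc = x := Fin.ext rfl
    have hyk : k.succ = y := Fin.ext (by show x.1 + 1 = y.1; exact hxy1)
    have hkP : gen (CoxeterMatrix.A n) k ∈ P (CoxeterMatrix.A n) {k | lo ≤ k.1 ∧ k.1 < hi} :=
      Subgroup.subset_closure ⟨k, ⟨by show lo ≤ x.1; exact hx, by show x.1 < hi; omega⟩, rfl⟩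
    obtain ⟨g1, g2, g3⟩ := hΨ k
    rw [hxk, hyk] at g1 g3
    rw [hxk, hyk] at g2
    have hneq : x ≠ y := by
      intro h
      rw [h] at hxy1
      omega
    refine ⟨?_, ?_, ?_⟩
    · intro h
      exact hneq (ox_injective ((Ψ (a * b)).injective h))
    · intro hTL
      have hlt := (h4 _ _ hTL).1
      apply hmin (b * gen _ k) (mul_mem hb hkP)
      apply sum_swap_lt _ _ x y hneq
      · have e1 : Ψ (a * (b * gen _ k)) (ox x) =
            Ψ (a * b) (ox x) * Ψ (a * b) (ox y) * Ψ (a * b) (ox x) := by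
          rw [← mul_assoc, map_mul, MulAut.mul_apply, g1, map_mul, map_mul]
        have e2 : Ψ (a * (b * gen _ k)) (ox y) = Ψ (a * b) (ox x) := by
          rw [← mul_assoc, map_mul, MulAut.mul_apply, g2]
        rw [e1, e2]
        omega
      · intro j hj1 hj2
        rw [← mul_assoc, map_mul, MulAut.mul_apply, g3 j hj1 hj2]
    · intro hTL
      have hlt := (h4 _ _ hTL).1
      have i2 : Ψ (gen _ k)⁻¹ (ox x) = ox y := by
        rw [map_inv, MulAut.inv_apply, MulEquiv.symm_apply_eq, g2]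
      have i1 : Ψ (gen _ k)⁻¹ (ox y) = ox y * ox x * ox y := by
        rw [map_inv, MulAut.inv_apply, MulEquiv.symm_apply_eq, map_mul, map_mul, g1, g2]
        calc ox y = (ox x * ox x) * ox y * (ox x * ox x) := by
              rw [ox_mul_self, one_mul, mul_one]
          _ = _ := by simp only [mul_assoc]
      have i3 : ∀ j, j ≠ x → j ≠ y → Ψ (gen _ k)⁻¹ (ox j) = ox j := by
        intro j hj1 hj2
        rw [map_inv, MulAut.inv_apply, MulEquiv.symm_apply_eq, g3 j hj1 hj2]
      apply hmin (b * (gen _ k)⁻¹) (mul_mem hb (inv_mem hkP))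
      apply sum_swap_lt _ _ x y hneq
      · have e1 : Ψ (a * (b * (gen _ k)⁻¹)) (ox y) =
            Ψ (a * b) (ox y) * Ψ (a * b) (ox x) * Ψ (a * b) (ox y) := by
          rw [← mul_assoc, map_mul, MulAut.mul_apply, i1, map_mul, map_mul]
        have e2 : Ψ (a * (b * (gen _ k)⁻¹)) (ox x) = Ψ (a * b) (ox y) := by
          rw [← mul_assoc, map_mul, MulAut.mul_apply, i2]
        rw [e1, e2]
        omega
      · intro j hj1 hj2
        rw [← mul_assoc, map_mul, MulAut.mul_apply, i3 j hj1 hj2]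

end H6

end Unf
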